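import Pool.Agent.H23.LC.Targets
import Pool.Agent.H23.LB.Targets
import Pool.Agent.H25.HK.HE

/-! # FK: the functional equation of the `L`-functions of all Hecke characters -/

set_option autoImplicit false

open NumberField NumberField.InfinitePlace NumberField.Units
  NumberField.Units.dirichletUnitTheorem MeasureTheory Set Filter Complex
open scoped nonZeroDivisors ENNReal Topology

namespace Pool.Agent.H25.GLB

open Pool.Agent.H25.HK Pool.Agent.H23.LB Pool.Agent.H23.LC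
open Pool.Agent.H28.RC (Rep ft idl)

/-! ### Mellin pairs -/

/-- the entire numerator -/
noncomputable def Gp (P : WeakFEPair ℂ) (s : ℂ) : ℂ :=
  s * (s - 1) * P.Λ₀ s - (s - 1) * P.f₀ + s * P.ε * P.g₀

theorem Gp_eq (P : WeakFEPair ℂ) (hk : P.k = 1) (s : ℂ) (h0 : s ≠ 0) (h1 : s ≠ 1) :
    s * (s - 1) * P.Λ s = Gp P s := by
  have h6 : P.Λ s = P.Λ₀ s - (1 / s) • P.f₀ - (P.ε / (P.k - s)) • P.g₀ := rfl
  have h2 : (1 : ℂ) - s ≠ 0 := sub_ne_zero.2 (Ne.symm h1)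
  rw [h6, hk]
  unfold Gp
  simp only [smul_eq_mul, ofReal_one]
  field_simp
  ring

theorem Gp_diff (P : WeakFEPair ℂ) : Differentiable ℂ (Gp P) := by
  unfold Gp
  have h := P.differentiable_Λ₀
  fun_prop

theorem Gp_zero (P : WeakFEPair ℂ) : Gp P 0 = P.f₀ := by
  unfold Gp
  ring

theorem Gp_one (P : WeakFEPair ℂ) : Gp P 1 = P.ε * P.g₀ := by
  unfold Gp
  ring

theorem norm_le_exp (s : ℂ) (b : ℝ) (hs : |s.re| ≤ b) :
    ‖s‖ ≤ (b + 2) * Real.exp |s.im| ∧ ‖s - 1‖ ≤ (b + 2) * Real.exp |s.im| := by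
  have hb : 0 ≤ b := (abs_nonneg _).trans hs
  have h1 : |s.im| + 1 ≤ Real.exp |s.im| := Real.add_one_le_exp _
  have h2 := abs_nonneg s.im
  have h3 : ‖s‖ ≤ |s.re| + |s.im| := Complex.norm_le_abs_re_add_abs_im s
  have h4 : ‖s - 1‖ ≤ ‖s‖ + 1 := by
    have := norm_sub_le s 1
    rwa [norm_one] at this
  constructor <;> nlinarith

theorem Gp_bd (hBD : T_BD) (P : WeakFEPair ℂ) (b : ℝ) :
    ∃ C : ℝ, 0 ≤ C ∧ ∀ s : ℂ, |s.re| ≤ b → ‖Gp P s‖ ≤ C * Real.exp (2 * |s.im|) := by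
  obtain ⟨Cb, hCb⟩ := hBD P b
  refine ⟨(b + 2) ^ 2 * |Cb| + |b + 2| * ‖P.f₀‖ + |b + 2| * (‖P.ε‖ * ‖P.g₀‖), by positivity,
    fun s hs => ?_⟩
  have hb : 0 ≤ b := (abs_nonneg _).trans hs
  obtain ⟨h1, h2⟩ := norm_le_exp s b hs
  rw [abs_of_nonneg (by linarith : (0 : ℝ) ≤ b + 2)]
  have h3 : ‖P.Λ₀ s‖ ≤ |Cb| := (hCb s hs).trans (le_abs_self _)
  have hE : Real.exp (2 * |s.im|) = Real.exp |s.im| * Real.exp |s.im| := by
    rw [← Real.exp_add]
    congr 1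
    ring
  have hE1 : 1 ≤ Real.exp |s.im| := Real.one_le_exp (abs_nonneg _)
  set e := Real.exp |s.im| with he
  have hee : e ≤ e * e := by nlinarith
  rw [hE]
  unfold Gp
  calc ‖s * (s - 1) * P.Λ₀ s - (s - 1) * P.f₀ + s * P.ε * P.g₀‖
      ≤ ‖s * (s - 1) * P.Λ₀ s‖ + ‖(s - 1) * P.f₀‖ + ‖s * P.ε * P.g₀‖ :=
        (norm_add_le _ _).trans (add_le_add_left (norm_sub_le _ _) _)
    _ = ‖s‖ * ‖s - 1‖ * ‖P.Λ₀ s‖ + ‖s - 1‖ * ‖P.f₀‖ + ‖s‖ * (‖P.ε‖ * ‖P.g₀‖) := by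
        simp only [norm_mul]
        ring
    _ ≤ ((b + 2) * e) * ((b + 2) * e) * |Cb| + ((b + 2) * e) * ‖P.f₀‖ +
        ((b + 2) * e) * (‖P.ε‖ * ‖P.g₀‖) := by gcongr
    _ ≤ ((b + 2) * e) * ((b + 2) * e) * |Cb| + ((b + 2) * (e * e)) * ‖P.f₀‖ +
        ((b + 2) * (e * e)) * (‖P.ε‖ * ‖P.g₀‖) := by gcongr
    _ = _ := by ring

theorem cpow_bd (x : ℝ) (w : ℂ) (B : ℝ) (hx : 0 < x) (hw : |w.re| ≤ B) :
    ‖((x : ℝ) : ℂ) ^ w‖ ≤ Real.exp (|Real.log x| * B) := by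
  rw [norm_cpow_eq_rpow_re_of_pos hx, Real.rpow_def_of_pos hx]
  refine Real.exp_le_exp.2 ?_
  calc Real.log x * w.re ≤ |Real.log x * w.re| := le_abs_self _
    _ = |Real.log x| * |w.re| := abs_mul _ _
    _ ≤ |Real.log x| * B := by gcongr

/-- the sum of the numerators -/
noncomputable def GS {ι : Type} [Fintype ι] (N : ι → ℝ) (P : ι → WeakFEPair ℂ) (s : ℂ) : ℂ :=
  ∑ c, ((N c : ℝ) : ℂ) ^ s * Gp (P c) s

theorem GS_diff {ι : Type} [Fintype ι] (N : ι → ℝ) (P : ι → WeakFEPair ℂ) (hN : ∀ c, 0 < N c) :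
    Differentiable ℂ (GS N P) := by
  unfold GS
  refine Differentiable.fun_sum fun c _ => ?_
  refine Differentiable.mul ?_ (Gp_diff _)
  exact differentiable_id.const_cpow (Or.inl (by exact_mod_cast (hN c).ne'))

theorem GS_bd (hBD : T_BD) {ι : Type} [Fintype ι] (N : ι → ℝ) (P : ι → WeakFEPair ℂ)
    (hN : ∀ c, 0 < N c) (b : ℝ) :
    ∃ C : ℝ, 0 ≤ C ∧ ∀ s : ℂ, |s.re| ≤ b → ‖GS N P s‖ ≤ C * Real.exp (2 * |s.im|) := by
  choose C hC0 hC using fun c => Gp_bd hBD (P c) b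
  refine ⟨∑ c, Real.exp (|Real.log (N c)| * b) * C c,
    Finset.sum_nonneg fun c _ => mul_nonneg (Real.exp_pos _).le (hC0 c), fun s hs => ?_⟩
  unfold GS
  rw [Finset.sum_mul]
  refine (norm_sum_le _ _).trans (Finset.sum_le_sum fun c _ => ?_)
  rw [norm_mul, mul_assoc]
  exact mul_le_mul (cpow_bd (N c) s b (hN c) hs) (hC c s hs) (norm_nonneg _)
    (Real.exp_pos _).le

/-! ### The `L`-function from its numerator -/

section

variable {K : Type} [Field K] [NumberField K] {f : Ideal (𝓞 K)}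

theorem isL_mk (D : Sys K f) (χ : HG K f) (L₀ L E : ℂ → ℂ) (hE : Differentiable ℂ E)
    (h0 : ∀ s : ℂ, s ≠ 0 → s ≠ 1 → E s = s * (s - 1) * L₀ s)
    (hL : ∀ s : ℂ, s ≠ 0 → s ≠ 1 → L s = L₀ s)
    (hg : ∀ b : ℝ, ∃ C A : ℝ, ∀ s : ℂ, |s.re| ≤ b → ‖E s‖ ≤ C * Real.exp (A * |s.im|))
    (h1 : ∀ s : ℂ, 1 < s.re → L₀ s = χ.series s)
    (h2 : ∀ s : ℂ, 1 < s.re → L₀ (1 - s) = gf χ s * serd D χ s) : IsL D χ L := by
  have ne : ∀ s : ℂ, 1 < s.re → s ≠ 0 ∧ s ≠ 1 ∧ 1 - s ≠ 0 ∧ 1 - s ≠ 1 := by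
    intro s hs
    refine ⟨?_, ?_, ?_, ?_⟩
    · rintro rfl; simp at hs; linarith
    · rintro rfl; simp at hs
    · intro h
      have h3 : s = 1 := by linear_combination -h
      rw [h3] at hs
      simp at hs
    · intro h
      have h3 : s = 0 := by linear_combination -h
      rw [h3] at hs
      simp at hs
      linarith
  refine ⟨fun s hs => ?_, fun s hs0 hs1 => ?_, ⟨E, hE, fun s hs0 hs1 => ?_, hg⟩, fun s hs => ?_⟩
  · rw [hL s (ne s hs).1 (ne s hs).2.1, h1 s hs]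
  · have h3 : L =ᶠ[𝓝 s] fun z => E z / (z * (z - 1)) := by
      have h4 : ∀ᶠ z in 𝓝 s, z ≠ 0 := isOpen_ne.mem_nhds hs0
      have h5 : ∀ᶠ z in 𝓝 s, z ≠ 1 := isOpen_ne.mem_nhds hs1
      filter_upwards [h4, h5] with z hz0 hz1
      have h6 : z - 1 ≠ 0 := sub_ne_zero.2 hz1
      rw [hL z hz0 hz1, h0 z hz0 hz1]
      field_simp
    refine DifferentiableAt.congr_of_eventuallyEq ?_ h3
    refine (hE s).div (by fun_prop) ?_
    exact mul_ne_zero hs0 (sub_ne_zero.2 hs1)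
  · rw [hL s hs0 hs1, h0 s hs0 hs1]
  · rw [hL (1 - s) (ne s hs).2.2.1 (ne s hs).2.2.2, h2 s hs]

theorem dslope_two (E : ℂ → ℂ) (hE : Differentiable ℂ E) (h0 : E 0 = 0) (h1 : E 1 = 0) :
    ∃ L : ℂ → ℂ, Differentiable ℂ L ∧ ∀ s : ℂ, s ≠ 0 → s ≠ 1 → E s = s * (s - 1) * L s := by
  have hd : ∀ (F : ℂ → ℂ) (c : ℂ), Differentiable ℂ F → Differentiable ℂ (dslope F c) := by
    intro F c hF
    have h2 := (Complex.differentiableOn_dslope (f := F) (s := univ) (c := c) univ_mem).2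
      hF.differentiableOn
    exact differentiableOn_univ.1 h2
  refine ⟨dslope (dslope E 0) 1, hd _ _ (hd _ _ hE), fun s hs0 hs1 => ?_⟩
  rw [dslope_of_ne _ hs1, slope_def_field, dslope_of_ne _ hs0, slope_def_field,
    dslope_of_ne _ one_ne_zero, slope_def_field, h0, h1]
  have h2 : s - 1 ≠ 0 := sub_ne_zero.2 hs1
  field_simp
  ring

/-! ### The polar terms -/

theorem ph_zero (x : K) : ph (0 : InfinitePlace K → ℝ) x = 1 := by
  simp [ph]

theorem ag_zero (x : K) : ag (0 : InfinitePlace K → ℤ) x = 1 := by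
  simp [ag]

theorem ec_zero (z : logSpace K) : ec K (0 : InfinitePlace K → ℝ) z = 1 := by
  simp [ec, pr]

open scoped Classical in
/-- the trivial character -/
noncomputable def triv (f : Ideal (𝓞 K)) : HG K f where
  ψ I := if I ≠ ⊥ ∧ I ⊔ f = ⊤ then 1 else 0
  k := 0
  ν := 0
  map_top := by simp
  map_mul I J := by
    by_cases hI : I = ⊥
    · simp [hI]
    by_cases hJ : J = ⊥
    · simp [hJ]
    have h0 : I * J ≠ ⊥ := mul_ne_zero hI hJ
    have h1 : (I * J) ⊔ f = ⊤ ↔ I ⊔ f = ⊤ ∧ J ⊔ f = ⊤ := by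
      rw [← Ideal.isCoprime_iff_sup_eq, ← Ideal.isCoprime_iff_sup_eq,
        ← Ideal.isCoprime_iff_sup_eq]
      exact IsCoprime.mul_left_iff
    by_cases h2 : I ⊔ f = ⊤ <;> by_cases h3 : J ⊔ f = ⊤ <;> simp [hI, hJ, h0, h1, h2, h3]
  map_bot := by simp
  norm_one I h1 h2 := by simp [h1, h2]
  eq_zero I h := by simp [h]
  princ a h1 h2 := by
    have h3 : Ideal.span {a} ⊔ f = ⊤ := by
      rw [Ideal.eq_top_iff_one]
      have h4 : a ∈ Ideal.span {a} ⊔ f :=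
        Ideal.mem_sup_left (Ideal.mem_span_singleton_self a)
      have h5 : a - 1 ∈ Ideal.span {a} ⊔ f := Ideal.mem_sup_right h2
      have h6 := Ideal.sub_mem _ h4 h5
      rwa [sub_sub_cancel] at h6
    have h4 : Ideal.span {a} ≠ (⊥ : Ideal (𝓞 K)) := by
      rwa [Ne, Ideal.span_singleton_eq_bot]
    rw [if_pos ⟨h4, h3⟩, ag_zero, ph_zero, mul_one]
  real_k _ _ := Or.inl rfl
  norm_zero := by simp

open scoped Classical in
theorem cg_triv (χ : HG K f) (M : FI K) (r : K) :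
    cg χ M r * (starRingEnd ℂ) (cg (triv f) M r) = cg χ M r := by
  unfold cg
  generalize (if r = 0 then z1 K f M else r) = x
  have h1 : ag (triv f).k x = 1 := ag_zero x
  have h2 : ph (triv f).ν x = 1 := ph_zero x
  have h3 : (triv f).ψ (idl K M x) =
    if idl K M x ≠ ⊥ ∧ idl K M x ⊔ f = ⊤ then 1 else 0 := rfl
  rw [h1, h2, h3]
  by_cases h4 : idl K M x ≠ ⊥ ∧ idl K M x ⊔ f = ⊤
  · simp [h4]
  · have h5 : χ.ψ (idl K M x) = 0 := by
      by_cases h6 : idl K M x = ⊥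
      · rw [h6, χ.map_bot]
      · exact χ.eq_zero _ fun h7 => h4 ⟨h6, h7⟩
    simp [h4, h5]

open scoped Classical in
/-- the polar terms vanish -/
theorem polar (hOG : U_OG) (hCG : U_CG) (hf : f ≠ ⊥) (D : Sys K f) (χ : HG K f)
    (hχ : ∃ I : Ideal (𝓞 K), χ.ψ I ≠ 0 ∧ χ.ψ I ≠ 1) :
    ∑ c, k0 χ (D.M c) = 0 ∧ ∑ c, k0' D χ c = 0 := by
  by_cases hk : χ.k = 0
  · have hne : χ ≠ triv f := by
      rintro h
      obtain ⟨I, h1, h2⟩ := hχ
      rw [h] at h1 h2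
      have h3 : (triv f).ψ I = if I ≠ ⊥ ∧ I ⊔ f = ⊤ then 1 else 0 := rfl
      rw [h3] at h1 h2
      split_ifs at h1 h2 with h4
      · exact h2 rfl
      · exact h1 rfl
    have h0 := (hOG K f hf D χ (triv f) hk).1 hne
    have h1 : ∑ c, ∑ r ∈ D.X c, cg χ (D.M c) r * (∫ z in Fd K, ec K χ.ν z) = 0 := by
      rw [← h0]
      refine Finset.sum_congr rfl fun c _ => Finset.sum_congr rfl fun r _ => ?_
      rw [cg_triv]
      congr 2
      funext z
      have h2 : ec K (triv f).ν z = 1 := ec_zero z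
      rw [h2, map_one, mul_one]
    constructor
    · by_cases hft : f = ⊤
      · rw [← h1]
        refine Finset.sum_congr rfl fun c _ => ?_
        unfold k0
        rw [if_pos hk]
        obtain ⟨-, -, -, h4, -, -, -, -⟩ := hCG K f χ (D.M c) hf (D.reps.1 c)
        have hzM : (0 : K) ∈ D.M c := FractionalIdeal.zero_mem _
        have h6 : (f : FI K) * D.M c = D.M c := by
          have h7 : (f : FI K) = 1 := by rw [hft, FractionalIdeal.coeIdeal_top]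
          rw [h7, one_mul]
        obtain ⟨r, ⟨hr1, hr2⟩, hr3⟩ := (D.rep c).2 0 hzM
        have h7 : D.X c = {r} := by
          refine Finset.eq_singleton_iff_unique_mem.2 ⟨hr1, fun r' hr' => ?_⟩
          refine hr3 r' ⟨hr', ?_⟩
          rw [h6]
          exact (D.M c : Submodule (𝓞 K) K).sub_mem hzM ((D.rep c).1 r' hr')
        rw [h7, Finset.sum_singleton]
        have hr : r ∈ (f : FI K) * D.M c := by
          rw [h6]
          exact (D.rep c).1 r hr1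
        have h8 := h4 0 hzM r hr
        rw [zero_add] at h8
        rw [h8]
      · refine Finset.sum_eq_zero fun c _ => ?_
        unfold k0
        rw [if_pos hk]
        obtain ⟨-, -, -, -, -, -, h5, -⟩ := hCG K f χ (D.M c) hf (D.reps.1 c)
        rw [h5 hft, zero_mul]
    · rw [← h1]
      refine Finset.sum_congr rfl fun c _ => ?_
      unfold k0'
      rw [if_pos hk, ← Finset.sum_mul]
      congr 1
      unfold ch ft
      refine Finset.sum_congr rfl fun r _ => ?_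
      simp
  · simp [k0, k0', hk]

/-! ### The functional equation -/

theorem psi_le (χ : HG K f) (I : Ideal (𝓞 K)) : ‖χ.ψ I‖ ≤ 1 := by
  by_cases h0 : I = ⊥
  · rw [h0, χ.map_bot, norm_zero]
    exact zero_le_one
  · by_cases h : I ⊔ f = ⊤
    · exact (χ.norm_one I h0 h).le
    · rw [χ.eq_zero I h, norm_zero]
      exact zero_le_one

theorem cw_ne : ((cw K : ℝ) : ℂ) ≠ 0 := by
  have h1 : (0 : ℝ) < torsionOrder K := by exact_mod_cast (torsionOrder_pos K)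
  have h2 : (0 : ℝ) < cw K := by
    unfold cw
    positivity
  exact_mod_cast h2.ne'

theorem cpow_cancel (N : ℝ) (s : ℂ) (hN : 0 < N) : ((N : ℝ) : ℂ) ^ s * ((N : ℝ) : ℂ) ^ (-s) = 1 := by
  rw [← cpow_add _ _ (by exact_mod_cast hN.ne'), add_neg_cancel, cpow_zero]

/-- a partial sum over the classes -/
theorem sumN {ι : Type} [Fintype ι] (N : ι → ℝ) (Λ : ι → ℂ) (B : ι → ℂ) (A T : ℂ) (s : ℂ)
    (hN : ∀ c, 0 < N c) (h : ∀ c, Λ c = A * ((N c : ℝ) : ℂ) ^ (-s) * B c) (hB : ∑ c, B c = T) :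
    ∑ c, ((N c : ℝ) : ℂ) ^ s * Λ c = A * T := by
  rw [← hB, Finset.mul_sum]
  refine Finset.sum_congr rfl fun c _ => ?_
  rw [h c]
  linear_combination (A * B c) * cpow_cancel (N c) s (hN c)

/-- the powers in the functional equation -/
theorem pows (N N' D F : ℝ) (s : ℂ) (hN : 0 < N) (hD : 0 < D) (hF : 0 < F)
    (h : N' * (F * N) * D = 1) :
    ((N : ℝ) : ℂ) ^ (1 - s) * (((Real.sqrt D * (F * N))⁻¹ : ℝ) : ℂ) *
      ((Real.sqrt F : ℝ) : ℂ) = (((D * F : ℝ)) : ℂ) ^ (s - 1 / 2) * ((N' : ℝ) : ℂ) ^ s := by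
  have hN' : N' = N⁻¹ * D⁻¹ * F⁻¹ := by
    have h3 := hN.ne'
    have h4 := hD.ne'
    have h5 := hF.ne'
    field_simp
    linarith
  have hDF : 0 < D * F := mul_pos hD hF
  have e1 : ((N : ℝ) : ℂ) ^ (1 - s) = cexp (Real.log N * (1 - s)) := by
    rw [cpow_def_of_ne_zero (by exact_mod_cast hN.ne'), ← ofReal_log hN.le]
  have e2 : (((Real.sqrt D * (F * N))⁻¹ : ℝ) : ℂ) =
      cexp (-(Real.log D * (1 / 2) + (Real.log F + Real.log N))) := by
    have h5 : (Real.sqrt D * (F * N))⁻¹ =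
        Real.exp (-(Real.log D * (1 / 2) + (Real.log F + Real.log N))) := by
      rw [Real.exp_neg, Real.exp_add, Real.exp_add, Real.exp_log hN, Real.exp_log hF,
        Real.sqrt_eq_rpow, Real.rpow_def_of_pos hD]
    rw [h5, ofReal_exp]
    push_cast
    rfl
  have e3 : (((D * F : ℝ)) : ℂ) ^ (s - 1 / 2) =
      cexp ((Real.log D + Real.log F) * (s - 1 / 2)) := by
    rw [cpow_def_of_ne_zero (by exact_mod_cast hDF.ne'), ← ofReal_log hDF.le,
      Real.log_mul hD.ne' hF.ne']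
    push_cast
    rfl
  have e4 : ((N' : ℝ) : ℂ) ^ s = cexp (-(Real.log N + Real.log D + Real.log F) * s) := by
    have h6 : 0 < N⁻¹ * D⁻¹ * F⁻¹ := by positivity
    rw [hN', cpow_def_of_ne_zero (by exact_mod_cast h6.ne'), ← ofReal_log h6.le,
      Real.log_mul (mul_ne_zero (inv_ne_zero hN.ne') (inv_ne_zero hD.ne'))
        (inv_ne_zero hF.ne'),
      Real.log_mul (inv_ne_zero hN.ne') (inv_ne_zero hD.ne'), Real.log_inv, Real.log_inv,
      Real.log_inv]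
    congr 1
    push_cast
    ring
  have e5 : ((Real.sqrt F : ℝ) : ℂ) = cexp (Real.log F * (1 / 2)) := by
    have h5 : Real.sqrt F = Real.exp (Real.log F * (1 / 2)) := by
      rw [Real.sqrt_eq_rpow, Real.rpow_def_of_pos hF]
    rw [h5, ofReal_exp]
    push_cast
    rfl
  rw [e1, e2, e3, e4, e5, ← Complex.exp_add, ← Complex.exp_add, ← Complex.exp_add]
  congr 1
  ring

end

/-- (FK) the functional equation of the `L`-function. -/
theorem pf_FK (hWK : U_WK) (hMK : U_MK) (hMM : U_MM) (hGE : U_GE) (hOG : U_OG)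
    (hRR : Pool.Agent.H23.LB.T_RR) (hCG : U_CG) (hDC : U_DC) (hBD : T_BD) (hDS : T_DS)
    (hDU : T_DU) : U_FK := by
  intro K _ _ f hf D χ
  choose P hPf hPg hPk hPε hPf0 hPg0 using fun c => hWK K f hf D χ c
  have hf0 : (f : FI K) ≠ 0 := by
    rw [Ne, FractionalIdeal.coeIdeal_eq_zero]
    exact hf
  have hM0 : ∀ c, D.M c ≠ 0 := D.reps.1
  have hfM : ∀ c, (f : FI K) * D.M c ≠ 0 := fun c => mul_ne_zero hf0 (hM0 c)
  have hF : (0 : ℝ) < Nf K f := by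
    have : Ideal.absNorm f ≠ 0 := by
      rw [Ne, Ideal.absNorm_eq_zero_iff]
      exact hf
    unfold Nf
    positivity
  have hd0 : 0 < |(discr K : ℝ)| := abs_pos.2 (by exact_mod_cast discr_ne_zero K)
  obtain ⟨N, hN⟩ : ∃ N : D.ι → ℝ, N = fun c => (FractionalIdeal.absNorm (D.M c) : ℝ) :=
    ⟨_, rfl⟩
  obtain ⟨N', hN'⟩ : ∃ N' : D.ι → ℝ,
    N' = fun c => (FractionalIdeal.absNorm (du K ((f : FI K) * D.M c)) : ℝ) := ⟨_, rfl⟩
  have hN0 : ∀ c, 0 < N c := fun c => by rw [hN]; exact (hDU K (D.M c) (hM0 c)).2.2.2.1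
  have hdu0 : ∀ c, du K ((f : FI K) * D.M c) ≠ 0 := fun c => (hDU K _ (hfM c)).1
  have hN'0 : ∀ c, 0 < N' c := fun c => by rw [hN']; exact (hDU K _ (hdu0 c)).2.2.2.1
  have hfMn : ∀ c, (FractionalIdeal.absNorm ((f : FI K) * D.M c) : ℝ) = Nf K f * N c := fun c => by
    rw [hN, map_mul, FractionalIdeal.coeIdeal_absNorm]
    unfold Nf
    push_cast
    rfl
  have hNN : ∀ c, N' c * (Nf K f * N c) * |(discr K : ℝ)| = 1 := fun c => by
    have h := (hDU K _ (hfM c)).2.2.2.2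
    rw [hfMn c] at h
    rw [hN']
    exact h
  have hreps2 : Reps K (fun c => du K ((f : FI K) * D.M c)) :=
    (hRR K D.ι _ ((hRR K D.ι D.M D.reps).1 f hf)).2.1
  obtain ⟨hG1, hG2, hG3⟩ := hGE K χ.k χ.ν χ.real_k
  -- the two Mellin transforms
  have hΛ1 : ∀ s : ℂ, 1 < s.re → ∑ c, ((N c : ℝ) : ℂ) ^ s * (P c).Λ s =
      (cw K : ℂ) * gG K χ.k χ.ν s * χ.series s := by
    intro s hs
    refine sumN N (fun c => (P c).Λ s) (fun c => ∑' I : {I : Ideal (𝓞 K) // Pri K (D.M c) I},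
      χ.ψ I.1 * (Ideal.absNorm I.1 : ℂ) ^ (-s)) _ _ s hN0 (fun c => ?_) ?_
    · have h1 := ((P c).hasMellin (s := s) (by rw [hPk]; exact hs)).2
      rw [← h1]
      have h2 : (fun x => (P c).f x - (P c).f₀) = fun t => fk χ (D.M c) t - k0 χ (D.M c) := by
        funext t
        rw [hPf, hPf0]
      rw [h2, hMK K f hf χ (D.M c) (hM0 c) s hs, hN]
    · refine sum_partition (fun I : Ideal (𝓞 K) => I ≠ ⊥) (fun c I => Pri K (D.M c) I)
        (fun c I h => h.1) D.reps.2 (fun I => χ.ψ I * (Ideal.absNorm I : ℂ) ^ (-s)) ?_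
      refine Summable.of_nonneg_of_le (fun I => norm_nonneg _) (fun I => ?_) (hDS K s hs).1
      rw [norm_mul]
      exact mul_le_of_le_one_left (norm_nonneg _) (psi_le χ I.1)
  have hΛ2 : ∀ s : ℂ, 1 < s.re → ∑ c, ((N' c : ℝ) : ℂ) ^ s * (P c).symm.Λ s =
      (cw K : ℂ) * gG K χ.k (-χ.ν) s * (((Real.sqrt (Nf K f) : ℝ) : ℂ) * serd D χ s) := by
    intro s hs
    refine sumN N' (fun c => (P c).symm.Λ s) (fun c => ((Real.sqrt (Nf K f) : ℝ) : ℂ) *
      ∑' J : {J : Ideal (𝓞 K) // Pri K (du K ((f : FI K) * D.M c)) J},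
        cd D χ J.1 * (Ideal.absNorm J.1 : ℂ) ^ (-s)) _ _ s hN'0 (fun c => ?_) ?_
    · have h1 := ((P c).symm.hasMellin (s := s) (by
        have h0 : (P c).symm.k = 1 := hPk c
        rw [h0]; exact hs)).2
      rw [← h1]
      have h2 : (fun x => (P c).symm.f x - (P c).symm.f₀) =
          fun t => fk' D χ c t - k0' D χ c := by
        funext t
        have h3 : (P c).symm.f t = (P c).g t := rfl
        have h4 : (P c).symm.f₀ = (P c).g₀ := rfl
        rw [h3, h4, hPg, hPg0]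
      rw [h2, hMM K f hf D χ c s hs, hN']
    · rw [← Finset.mul_sum]
      congr 1
      refine sum_partition (fun I : Ideal (𝓞 K) => I ≠ ⊥)
        (fun c I => Pri K (du K ((f : FI K) * D.M c)) I)
        (fun c I h => h.1) hreps2.2 (fun I => cd D χ I * (Ideal.absNorm I : ℂ) ^ (-s)) ?_
      refine Summable.of_nonneg_of_le (fun I => norm_nonneg _) (fun I => ?_)
        ((hDS K s hs).1.mul_left (Real.sqrt (Nf K f)))
      rw [norm_mul]
      exact mul_le_mul_of_nonneg_right ((hDC K f hf D χ).1 I.1) (norm_nonneg _)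
  -- the functional equation
  have hfe : ∀ s : ℂ, 1 < s.re → ∑ c, ((N c : ℝ) : ℂ) ^ (1 - s) * (P c).Λ (1 - s) =
      (-I) ^ dk K χ.k * (((|(discr K : ℝ)| * Nf K f : ℝ) : ℂ)) ^ (s - 1 / 2) *
        ((cw K : ℂ) * gG K χ.k (-χ.ν) s * serd D χ s) := by
    intro s hs
    have hq : ((Real.sqrt (Nf K f) : ℝ) : ℂ) ≠ 0 := by
      exact_mod_cast (Real.sqrt_pos.2 hF).ne'
    refine mul_left_cancel₀ hq ?_
    have h1 : ∀ c, ((N c : ℝ) : ℂ) ^ (1 - s) * (P c).Λ (1 - s) * ((Real.sqrt (Nf K f) : ℝ) : ℂ) =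
        ((-I) ^ dk K χ.k * (((|(discr K : ℝ)| * Nf K f : ℝ) : ℂ)) ^ (s - 1 / 2)) *
          (((N' c : ℝ) : ℂ) ^ s * (P c).symm.Λ s) := by
      intro c
      have h2 := (P c).functional_equation s
      rw [hPk, ofReal_one, hPε, smul_eq_mul] at h2
      have hcv : cv K ((f : FI K) * D.M c) = Real.sqrt |(discr K : ℝ)| * (Nf K f * N c) := by
        unfold cv
        rw [hfMn c]
      rw [h2, hcv]
      have h3 := pows (N c) (N' c) |(discr K : ℝ)| (Nf K f) s (hN0 c) hd0 hF (hNN c)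
      linear_combination ((-I) ^ dk K χ.k * (P c).symm.Λ s) * h3
    rw [mul_comm, Finset.sum_mul, Finset.sum_congr rfl fun c _ => h1 c, ← Finset.mul_sum,
      hΛ2 s hs]
    ring
  -- the entire function
  obtain ⟨L₀, hL₀⟩ : ∃ L₀ : ℂ → ℂ, L₀ = fun s => ((cw K : ℝ) : ℂ)⁻¹ * (gG K χ.k χ.ν s)⁻¹ *
    ∑ c, ((N c : ℝ) : ℂ) ^ s * (P c).Λ s := ⟨_, rfl⟩
  obtain ⟨E, hE⟩ : ∃ E : ℂ → ℂ, E = fun s => ((cw K : ℝ) : ℂ)⁻¹ * (gG K χ.k χ.ν s)⁻¹ *
    GS N P s := ⟨_, rfl⟩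
  have hEd : Differentiable ℂ E := by
    rw [hE]
    exact (hG1.const_mul _).mul (GS_diff N P hN0)
  have hEL : ∀ s : ℂ, s ≠ 0 → s ≠ 1 → E s = s * (s - 1) * L₀ s := by
    intro s h0 h1
    rw [hE, hL₀]
    simp only
    unfold GS
    have h2 : ∑ c, ((N c : ℝ) : ℂ) ^ s * Gp (P c) s =
        s * (s - 1) * ∑ c, ((N c : ℝ) : ℂ) ^ s * (P c).Λ s := by
      rw [Finset.mul_sum]
      refine Finset.sum_congr rfl fun c _ => ?_
      rw [← Gp_eq (P c) (hPk c) s h0 h1]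
      ring
    rw [h2]
    ring
  have hEg : ∀ b : ℝ, ∃ C A : ℝ, ∀ s : ℂ, |s.re| ≤ b → ‖E s‖ ≤ C * Real.exp (A * |s.im|) := by
    intro b
    obtain ⟨C1, A1, h1⟩ := hG3 b
    obtain ⟨C2, hC2, h2⟩ := GS_bd hBD N P hN0 b
    refine ⟨‖((cw K : ℝ) : ℂ)⁻¹‖ * |C1| * C2, A1 + 2, fun s hs => ?_⟩
    rw [hE]
    simp only [norm_mul]
    have h3 : ‖(gG K χ.k χ.ν s)⁻¹‖ ≤ |C1| * Real.exp (A1 * |s.im|) :=
      (h1 s hs).trans (mul_le_mul_of_nonneg_right (le_abs_self _) (Real.exp_pos _).le)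
    calc ‖((cw K : ℝ) : ℂ)⁻¹‖ * ‖(gG K χ.k χ.ν s)⁻¹‖ * ‖GS N P s‖
        ≤ ‖((cw K : ℝ) : ℂ)⁻¹‖ * (|C1| * Real.exp (A1 * |s.im|)) *
          (C2 * Real.exp (2 * |s.im|)) := by
          have := h2 s hs
          gcongr
      _ = _ := by
          have h4 : Real.exp ((A1 + 2) * |s.im|) =
              Real.exp (A1 * |s.im|) * Real.exp (2 * |s.im|) := by
            rw [← Real.exp_add]
            congr 1
            ring
          rw [h4]
          ring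
  have hser : ∀ s : ℂ, 1 < s.re → L₀ s = χ.series s := by
    intro s hs
    rw [hL₀]
    simp only
    rw [hΛ1 s hs]
    have h1 := (hG2 s (by linarith)).1
    have h2 := cw_ne (K := K)
    field_simp
  have hdual : ∀ s : ℂ, 1 < s.re → L₀ (1 - s) = gf χ s * serd D χ s := by
    intro s hs
    rw [hL₀]
    simp only
    rw [hfe s hs]
    have h2 := cw_ne (K := K)
    unfold gf
    field_simp
  by_cases hχ : ∃ I : Ideal (𝓞 K), χ.ψ I ≠ 0 ∧ χ.ψ I ≠ 1
  · obtain ⟨p0, p1⟩ := polar hOG hCG hf D χ hχ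
    have hE0 : E 0 = 0 := by
      rw [hE]
      simp only
      unfold GS
      have h1 : ∑ c, ((N c : ℝ) : ℂ) ^ (0 : ℂ) * Gp (P c) 0 = 0 := by
        refine Eq.trans (Finset.sum_congr rfl fun c _ => ?_) p0
        rw [cpow_zero, one_mul, Gp_zero, hPf0]
      rw [h1, mul_zero]
    have hE1 : E 1 = 0 := by
      rw [hE]
      simp only
      unfold GS
      have h1 : ∑ c, ((N c : ℝ) : ℂ) ^ (1 : ℂ) * Gp (P c) 1 =
          (((Real.sqrt |(discr K : ℝ)| * Nf K f)⁻¹ : ℝ) : ℂ) * (-I) ^ dk K χ.k *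
            ∑ c, k0' D χ c := by
        rw [Finset.mul_sum]
        refine Finset.sum_congr rfl fun c _ => ?_
        rw [cpow_one, Gp_one, hPg0, hPε]
        have hcv : cv K ((f : FI K) * D.M c) = Real.sqrt |(discr K : ℝ)| * (Nf K f * N c) := by
          unfold cv
          rw [hfMn c]
        have h3 : ((N c : ℝ) : ℂ) * (((cv K ((f : FI K) * D.M c))⁻¹ : ℝ) : ℂ) =
            (((Real.sqrt |(discr K : ℝ)| * Nf K f)⁻¹ : ℝ) : ℂ) := by
          rw [hcv, ← ofReal_mul]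
          congr 1
          have h4 := (Real.sqrt_pos.2 hd0).ne'
          have h5 := hF.ne'
          have h6 := (hN0 c).ne'
          field_simp
        linear_combination ((-I) ^ dk K χ.k * k0' D χ c) * h3
      rw [h1, p1, mul_zero, mul_zero]
    obtain ⟨L, hL, hLE⟩ := dslope_two E hEd hE0 hE1
    refine ⟨L, isL_mk D χ L₀ L E hEd hEL (fun s h0 h1 => ?_) hEg hser hdual, fun _ => hL⟩
    have h2 : s * (s - 1) ≠ 0 := mul_ne_zero h0 (sub_ne_zero.2 h1)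
    refine mul_left_cancel₀ h2 ?_
    rw [← hLE s h0 h1, hEL s h0 h1]
  · exact ⟨L₀, isL_mk D χ L₀ L₀ E hEd hEL (fun s _ _ => rfl) hEg hser hdual,
      fun h => absurd h hχ⟩

end Pool.Agent.H25.GLB
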