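import Pool.Agent.H23.LC.Targets
import Pool.Agent.H28.RC.Basic
import Pool.Agent.H87.HK.CT

/-! # SK: absolute convergence of the theta series with harmonic polynomials -/

set_option autoImplicit false

open NumberField NumberField.InfinitePlace NumberField.Units
  NumberField.Units.dirichletUnitTheorem MeasureTheory Set Filter Complex
open scoped nonZeroDivisors ENNReal

namespace Pool.Agent.H25.GLB

open Pool.Agent.H25.HK Pool.Agent.H23.LB Pool.Agent.H23.LC

/-- one factor -/
theorem pow_le_exp (n : ℕ) (e u : ℝ) (he : 1 ≤ e) (hu : 0 ≤ u) :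
    u ^ n ≤ (1 + n.factorial) * Real.exp (Real.pi * (e * u ^ 2 / 2)) := by
  have hpi := Real.pi_gt_three
  have h1 : u ^ n ≤ 1 + (u ^ 2) ^ n := by
    rcases le_total u 1 with h | h
    · have := pow_le_one₀ hu h (n := n)
      have h2 : 0 ≤ (u ^ 2) ^ n := by positivity
      linarith
    · have h2 : u ≤ u ^ 2 := by nlinarith
      have h3 := pow_le_pow_left₀ hu h2 n
      linarith
  have h2 : (u ^ 2) ^ n ≤ n.factorial * Real.exp (u ^ 2) := by
    have h3 := Real.pow_div_factorial_le_exp (x := u ^ 2) (sq_nonneg u) n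
    have h4 : (0 : ℝ) < n.factorial := by exact_mod_cast n.factorial_pos
    rw [div_le_iff₀ h4] at h3
    linarith
  have h5 : u ^ 2 ≤ Real.pi * (e * u ^ 2 / 2) := by
    have h6 : 0 ≤ u ^ 2 := sq_nonneg u
    have h7 : u ^ 2 ≤ e * u ^ 2 := by nlinarith
    nlinarith
  have h6 := Real.exp_le_exp.2 h5
  have h7 : (1 : ℝ) ≤ Real.exp (Real.pi * (e * u ^ 2 / 2)) :=
    Real.one_le_exp (by positivity)
  have h8 : (0 : ℝ) ≤ n.factorial := by positivity
  nlinarith

section
variable {K : Type} [Field K] [NumberField K]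

theorem norm_ag_le (hAG : U_AG) (k : InfinitePlace K → ℤ) (x : K) : ‖ag k x‖ ≤ 1 := by
  by_cases hx : x = 0
  · by_cases hk : k = 0
    · rw [hk, (hAG K 0).2.2.2.2.1 x, norm_one]
    · rw [hx, (hAG K k).2.2.2.2.2 hk, norm_zero]
      exact zero_le_one
  · exact ((hAG K k).2.1 x hx).le

theorem qK_shift (y : InfinitePlace K → ℝ) (x : K) :
    qK K (fun v => y v - Real.log 2) x = qK K y x / 2 := by
  unfold qK
  rw [Finset.sum_div]
  refine Finset.sum_congr rfl fun v _ => ?_
  rw [Real.exp_sub, Real.exp_log (by norm_num)]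
  ring

theorem norm_wk_le (hAG : U_AG) (k : InfinitePlace K → ℤ) (y : InfinitePlace K → ℝ) (x : K) :
    ‖wk K k y x‖ ≤ (∏ v : InfinitePlace K, (1 + ((k v).natAbs.factorial : ℝ))) *
      Real.exp (Real.pi * (qK K y x / 2)) := by
  have h1 : ‖wk K k y x‖ ≤ ∏ v : InfinitePlace K, (Real.exp (y v / 2) * v x) ^ (k v).natAbs := by
    unfold wk
    rw [norm_mul, norm_prod]
    have h2 : ∏ v : InfinitePlace K, ‖(((Real.exp (y v / 2) * v x : ℝ) : ℂ)) ^ (k v).natAbs‖ =
        ∏ v : InfinitePlace K, (Real.exp (y v / 2) * v x) ^ (k v).natAbs := by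
      refine Finset.prod_congr rfl fun v _ => ?_
      rw [norm_pow, Complex.norm_real, Real.norm_of_nonneg]
      exact mul_nonneg (Real.exp_pos _).le (apply_nonneg v x)
    rw [h2]
    have h3 : 0 ≤ ∏ v : InfinitePlace K, (Real.exp (y v / 2) * v x) ^ (k v).natAbs :=
      Finset.prod_nonneg fun v _ => pow_nonneg (mul_nonneg (Real.exp_pos _).le (apply_nonneg v x)) _
    exact mul_le_of_le_one_right h3 (norm_ag_le hAG k x)
  refine h1.trans ?_
  have h4 : Real.exp (Real.pi * (qK K y x / 2)) =
      ∏ v : InfinitePlace K, Real.exp (Real.pi * ((v.mult : ℝ) * (Real.exp (y v / 2) * v x) ^ 2 / 2)) := by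
    rw [← Real.exp_sum]
    congr 1
    unfold qK
    rw [Finset.sum_div, Finset.mul_sum]
    refine Finset.sum_congr rfl fun v _ => ?_
    rw [mul_pow, ← Real.exp_nat_mul]
    have : ((2 : ℕ) : ℝ) * (y v / 2) = y v := by push_cast; ring
    rw [this]
    ring
  rw [h4, ← Finset.prod_mul_distrib]
  refine Finset.prod_le_prod (fun v _ => ?_) fun v _ => ?_
  · exact pow_nonneg (mul_nonneg (Real.exp_pos _).le (apply_nonneg v x)) _
  · refine pow_le_exp _ _ _ ?_ (mul_nonneg (Real.exp_pos _).le (apply_nonneg v x))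
    exact_mod_cast NumberField.InfinitePlace.mult_pos

theorem wk_exp_le (hAG : U_AG) (k : InfinitePlace K → ℤ) (y : InfinitePlace K → ℝ) (x : K) :
    ‖wk K k y x‖ * Real.exp (-Real.pi * qK K y x) ≤
      (∏ v : InfinitePlace K, (1 + ((k v).natAbs.factorial : ℝ))) *
        Real.exp (-Real.pi * qK K (fun v => y v - Real.log 2) x) := by
  calc ‖wk K k y x‖ * Real.exp (-Real.pi * qK K y x)
      ≤ ((∏ v : InfinitePlace K, (1 + ((k v).natAbs.factorial : ℝ))) *
        Real.exp (Real.pi * (qK K y x / 2))) * Real.exp (-Real.pi * qK K y x) :=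
        mul_le_mul_of_nonneg_right (norm_wk_le hAG k y x) (Real.exp_pos _).le
    _ = _ := by
        rw [mul_assoc, ← Real.exp_add, qK_shift]
        congr 2
        ring

theorem continuous_wk (k : InfinitePlace K → ℤ) (x : K) :
    Continuous (fun y : InfinitePlace K → ℝ => wk K k y x) := by
  unfold wk
  refine Continuous.mul (continuous_finsetProd _ fun v _ => ?_) continuous_const
  refine Continuous.pow (Complex.continuous_ofReal.comp ?_) _
  fun_prop

end

/-- (SK) absolute convergence. -/
theorem pf_SK (hAG : U_AG) (hTH : T_TH) : U_SK := by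
  intro K _ _ k
  set C : ℝ := ∏ v : InfinitePlace K, (1 + ((k v).natAbs.factorial : ℝ)) with hC
  have hC0 : 0 ≤ C := Finset.prod_nonneg fun v _ => by positivity
  refine ⟨⟨C, fun y x => wk_exp_le hAG k y x⟩, ?_, ?_, ?_⟩
  · intro M hM y
    refine Summable.of_nonneg_of_le (fun x => by positivity) (fun x => wk_exp_le hAG k y x) ?_
    exact (hTH K M hM (fun v => y v - Real.log 2)).1.mul_left _
  · intro y
    refine ⟨fun hk => ?_, fun hk x => ?_⟩
    · unfold wk
      rw [(hAG K k).2.2.2.2.2 hk, mul_zero]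
    · unfold wk
      rw [hk, (hAG K 0).2.2.2.2.1 x]
      simp
  · intro M c hM ⟨B, hB⟩
    rw [continuous_iff_continuousAt]
    intro y0
    have hcont : ContinuousOn (tk K k M c) {y | ∀ v, -(1 + ∑ w, |y0 w|) < y v} := by
      unfold tk
      refine continuousOn_tsum (u := fun x : {x : K // x ∈ M} => |B| * (C *
        Real.exp (-Real.pi * qK K (fun _ => -(1 + ∑ w, |y0 w|) - Real.log 2) x))) ?_
        (((hTH K M hM _).1.mul_left _).mul_left _) ?_
      · intro x
        refine Continuous.continuousOn ?_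
        refine continuous_const.mul ((continuous_wk k (x : K)).mul
          (Complex.continuous_ofReal.comp ?_))
        unfold qK
        fun_prop
      · intro x y hy
        rw [norm_mul, norm_mul, Complex.norm_real, Real.norm_eq_abs, abs_of_pos (Real.exp_pos _)]
        have h1 := Pool.Agent.H87.HK.qK_mono
          (y := fun _ => -(1 + ∑ w, |y0 w|) - Real.log 2) (y' := fun v => y v - Real.log 2)
          (fun v => by
            have := hy v
            linarith) (x : K)
        have h2 := wk_exp_le hAG k y (x : K)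
        have h3 : Real.exp (-Real.pi * qK K (fun v => y v - Real.log 2) x) ≤
            Real.exp (-Real.pi * qK K (fun _ => -(1 + ∑ w, |y0 w|) - Real.log 2) x) := by
          apply Real.exp_le_exp.2
          have := Real.pi_pos
          nlinarith
        have h4 : 0 ≤ ‖wk K k y x‖ * Real.exp (-Real.pi * qK K y x) := by positivity
        calc ‖c x‖ * (‖wk K k y x‖ * Real.exp (-Real.pi * qK K y x))
            ≤ |B| * (‖wk K k y x‖ * Real.exp (-Real.pi * qK K y x)) :=
              mul_le_mul_of_nonneg_right ((hB x x.2).trans (le_abs_self B)) h4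
          _ ≤ _ := mul_le_mul_of_nonneg_left (h2.trans (mul_le_mul_of_nonneg_left h3 hC0))
              (abs_nonneg B)
    refine hcont.continuousAt (IsOpen.mem_nhds ?_ ?_)
    · have : {y : InfinitePlace K → ℝ | ∀ v, -(1 + ∑ w, |y0 w|) < y v} =
          ⋂ v, {y | -(1 + ∑ w, |y0 w|) < y v} := by
        ext y
        simp
      rw [this]
      exact isOpen_iInter_of_finite fun v => isOpen_lt continuous_const (continuous_apply v)
    · intro v
      have h1 : |y0 v| ≤ ∑ w, |y0 w| :=
        Finset.single_le_sum (f := fun w => |y0 w|) (fun w _ => abs_nonneg _) (Finset.mem_univ v)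
      have h2 := neg_abs_le (y0 v)
      linarith

end Pool.Agent.H25.GLB
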